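import Pool.Agent.H689R3.WeylGeomC

/-!
Multiplicity of a form at a point through its degree along lines with that direction, and the
degree of determinants with few nonconstant columns or rows.
-/

set_option autoImplicit false

namespace Pool.Agent.V1157.WB

open Finset MvPolynomial Pool.Agent.H689R3.Weyl

/-- restriction of a polynomial to the line through `v` with direction `p` -/
noncomputable def line {n : ℕ} (v p : Fin (n + 1) → ℂ) :
    MvPolynomial (Fin (n + 1)) ℂ →ₐ[ℂ] Polynomial ℂ :=
  aeval (fun l => Polynomial.C (v l) + Polynomial.C (p l) * Polynomial.X)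

lemma eval_line {n : ℕ} (v p : Fin (n + 1) → ℂ) (t : ℂ) (f : MvPolynomial (Fin (n + 1)) ℂ) :
    (line v p f).eval t = MvPolynomial.eval (fun l => v l + p l * t) f := by
  have : ((Polynomial.evalRingHom t).comp (line v p).toRingHom) =
      MvPolynomial.eval (fun l => v l + p l * t) := by
    apply MvPolynomial.ringHom_ext
    · intro r; simp [line]
    · intro l; simp [line]
  exact DFunLike.congr_fun this f

lemma eval_shift {n : ℕ} (v w : Fin (n + 1) → ℂ) (f : MvPolynomial (Fin (n + 1)) ℂ) :
    (MvPolynomial.eval w) (shift v f) = MvPolynomial.eval (fun l => w l + v l) f := by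
  have : ((MvPolynomial.eval w).comp (shift v).toRingHom) =
      MvPolynomial.eval (fun l => w l + v l) := by
    apply MvPolynomial.ringHom_ext
    · intro r; simp [shift]
    · intro i; simp [shift]
  exact DFunLike.congr_fun this f

lemma eval_homog_smul {n d : ℕ} {f : MvPolynomial (Fin (n + 1)) ℂ} (hf : f.IsHomogeneous d)
    (t : ℂ) (w : Fin (n + 1) → ℂ) :
    MvPolynomial.eval (fun l => t * w l) f = t ^ d * MvPolynomial.eval w f := by
  rw [MvPolynomial.eval_eq', MvPolynomial.eval_eq', Finset.mul_sum]
  refine Finset.sum_congr rfl fun a ha => ?_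
  have h1 := homog_degree hf ha
  have h2 : ∏ i, (t * w i) ^ a i = t ^ d * ∏ i, w i ^ a i := by
    rw [← h1, Finsupp.degree_eq_sum, ← Finset.prod_pow_eq_pow_sum, ← Finset.prod_mul_distrib]
    exact Finset.prod_congr rfl fun i _ => mul_pow _ _ _
  rw [h2]; ring

/-- A form of degree `d` whose restriction to all lines with direction `p` has degree at most
`d - m` vanishes to order at least `m` at `p`. -/
lemma mem_of_natDegree {n d m : ℕ} {f : MvPolynomial (Fin (n + 1)) ℂ} (hf : f.IsHomogeneous d)
    (p : Fin (n + 1) → ℂ) (h : ∀ v : Fin (n + 1) → ℂ, (line v p f).natDegree + m ≤ d) :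
    f ∈ (RingHom.ker (MvPolynomial.eval p)) ^ m := by
  rw [mem_ker_pow_iff]
  intro b hb
  set g := shift p f with hg
  set k := b.degree with hk
  have hkey : homogeneousComponent k g = 0 := by
    by_cases hkN : g.totalDegree < k
    · exact homogeneousComponent_eq_zero _ _ hkN
    push Not at hkN
    apply MvPolynomial.funext
    intro v
    rw [map_zero]
    set N := g.totalDegree with hN
    have hpoly : Polynomial.X ^ N * line v p f = Polynomial.X ^ d *
        ∑ j ∈ range (N + 1), Polynomial.C (MvPolynomial.eval v (homogeneousComponent j g)) *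
          Polynomial.X ^ (N - j) := by
      apply Polynomial.eq_of_infinite_eval_eq
      refine Set.Infinite.mono (s := {t : ℂ | t ≠ 0}) ?_ (Set.Finite.infinite_compl (Set.finite_singleton (0 : ℂ)))
      intro t ht
      simp only [Set.mem_ofPred_eq] at ht ⊢
      rw [Polynomial.eval_mul, Polynomial.eval_mul, Polynomial.eval_finsetSum, eval_line]
      simp only [Polynomial.eval_pow, Polynomial.eval_X, Polynomial.eval_mul, Polynomial.eval_C]
      have h1 : MvPolynomial.eval (fun l => v l + p l * t) f =
          t ^ d * MvPolynomial.eval (fun l => t⁻¹ * v l) g := by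
        rw [hg, eval_shift, ← eval_homog_smul hf]
        have h0 : (fun l => v l + p l * t) = fun l => t * (t⁻¹ * v l + p l) := by
          funext l
          field_simp
        rw [h0]
      have h2 : MvPolynomial.eval (fun l => t⁻¹ * v l) g =
          ∑ j ∈ range (N + 1), (t⁻¹) ^ j * MvPolynomial.eval v (homogeneousComponent j g) := by
        conv_lhs => rw [← sum_homogeneousComponent g]
        rw [map_sum]
        exact Finset.sum_congr rfl fun j _ =>
          eval_homog_smul (homogeneousComponent_isHomogeneous j g) _ _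
      rw [h1, h2, Finset.mul_sum, Finset.mul_sum, Finset.mul_sum]
      refine Finset.sum_congr rfl fun j hj => ?_
      have h3 : j ≤ N := by have := mem_range.1 hj; omega
      have h4 : t ^ N = t ^ (N - j) * t ^ j := by rw [← pow_add]; congr 1; omega
      rw [h4, inv_pow]
      field_simp
    have hc := congrArg (fun q : Polynomial ℂ => q.coeff (N - k + d)) hpoly
    beta_reduce at hc
    have hv := h v
    have e1 : (Polynomial.X ^ N * line v p f).coeff (N - k + d) = 0 := by
      have : N - k + d = (d - k) + N := by omega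
      rw [this, Polynomial.coeff_X_pow_mul]
      apply Polynomial.coeff_eq_zero_of_natDegree_lt
      omega
    rw [e1, mul_comm (Polynomial.X ^ d), Polynomial.coeff_mul_X_pow, Polynomial.finsetSum_coeff,
      Finset.sum_eq_single k] at hc
    · rw [Polynomial.coeff_C_mul_X_pow, if_pos rfl] at hc
      exact hc.symm
    · intro j hj hjk
      rw [Polynomial.coeff_C_mul_X_pow, if_neg]
      have := mem_range.1 hj
      omega
    · intro hk'
      exfalso
      apply hk'
      rw [mem_range]; omega
  have h5 := coeff_homogeneousComponent (R := ℂ) k g b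
  rw [hkey, coeff_zero] at h5
  have hkk : b.degree = k := rfl
  rw [if_pos hkk] at h5
  exact h5.symm

/-- Degree of a determinant with few nonconstant columns. -/
lemma natDegree_det_cols {ι : Type*} [Fintype ι] [DecidableEq ι] (M : Matrix ι ι (Polynomial ℂ))
    (s : Finset ι) (h0 : ∀ i j, j ∉ s → (M i j).natDegree = 0)
    (h1 : ∀ i j, (M i j).natDegree ≤ 1) : M.det.natDegree ≤ s.card := by
  rw [Matrix.det_apply]
  apply Polynomial.natDegree_sum_le_of_forall_le
  intro σ _
  refine (Polynomial.natDegree_smul_le _ _).trans ?_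
  refine (Polynomial.natDegree_prod_le _ _).trans ?_
  calc ∑ i, (M (σ i) i).natDegree ≤ ∑ i, (if i ∈ s then 1 else 0) := by
        refine Finset.sum_le_sum fun i _ => ?_
        by_cases hi : i ∈ s
        · rw [if_pos hi]; exact h1 _ _
        · rw [if_neg hi, h0 _ _ hi]
    _ = s.card := by simp

lemma natDegree_det_rows {ι : Type*} [Fintype ι] [DecidableEq ι] (M : Matrix ι ι (Polynomial ℂ))
    (s : Finset ι) (h0 : ∀ i j, i ∉ s → (M i j).natDegree = 0)
    (h1 : ∀ i j, (M i j).natDegree ≤ 1) : M.det.natDegree ≤ s.card := by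
  rw [← Matrix.det_transpose]
  exact natDegree_det_cols _ s (fun i j hj => h0 j i hj) (fun i j => h1 j i)

section blocks

variable {R : Type*} [CommRing R] {U L S T : Type*} [Fintype U] [Fintype L] [Fintype S] [Fintype T]
  [DecidableEq U] [DecidableEq L] [DecidableEq S] [DecidableEq T]

/-- Determinant of a matrix with rows and columns matched by `e`. -/
noncomputable def dt (e : S ⊕ T ≃ U ⊕ L) (M : Matrix (U ⊕ L) (S ⊕ T) R) : R :=
  (M.submatrix e id).det

lemma dt_mul (e : S ⊕ T ≃ U ⊕ L) (A : Matrix (U ⊕ L) (U ⊕ L) R) (M : Matrix (U ⊕ L) (S ⊕ T) R)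
    (B : Matrix (S ⊕ T) (S ⊕ T) R) : dt e (A * M * B) = A.det * dt e M * B.det := by
  have h : (A * M * B).submatrix e id = A.submatrix e e * M.submatrix e id * B := by
    rw [Matrix.submatrix_mul_equiv A M e e id]
    ext i j
    rfl
  unfold dt
  rw [h, Matrix.det_mul, Matrix.det_mul, Matrix.det_submatrix_equiv_self]

/-- Row and column operations. -/
lemma dt_ops (e : S ⊕ T ≃ U ⊕ L) (P : Matrix U S R) (Q : Matrix L S R) (N : Matrix L T R)
    (A : Matrix L U R) (B : Matrix T S R) :
    dt e (Matrix.fromBlocks P 0 (Q + A * P + N * B) N) = dt e (Matrix.fromBlocks P 0 Q N) := by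
  have h : Matrix.fromBlocks P 0 (Q + A * P + N * B) N =
      (Matrix.fromBlocks (1 : Matrix U U R) 0 A (1 : Matrix L L R)) * Matrix.fromBlocks P 0 Q N *
        (Matrix.fromBlocks (1 : Matrix S S R) 0 B (1 : Matrix T T R)) := by
    rw [Matrix.fromBlocks_multiply, Matrix.fromBlocks_multiply]
    simp only [Matrix.one_mul, Matrix.zero_mul, Matrix.mul_one, Matrix.mul_zero, add_zero,
      zero_add, Matrix.zero_mul]
    congr 1
    rw [add_comm Q]
  rw [h, dt_mul, Matrix.det_fromBlocks_zero₁₂, Matrix.det_fromBlocks_zero₁₂]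
  simp

omit [Fintype U] [Fintype L] [DecidableEq U] [DecidableEq L] in
lemma map_dt {R' : Type*} [CommRing R'] (φ : R →+* R') (e : S ⊕ T ≃ U ⊕ L)
    (M : Matrix (U ⊕ L) (S ⊕ T) R) : φ (dt e M) = dt e (M.map φ) := by
  unfold dt
  rw [RingHom.map_det]
  rfl

end blocks

end Pool.Agent.V1157.WB
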