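import Pool.Agent.V1157.WB.Nz

/-!
The class `14 H - 10 (E_1 + ... + E_9) - 9 E_10` is effective for all configurations of ten points
in projective 6-space; cones over the hypersurface.
-/

set_option autoImplicit false

namespace Pool.Agent.V1157.WB

open Finset MvPolynomial Pool.Agent.H689R3.Weyl

lemma exists_equiv : Nonempty (Sset ⊕ Tset ≃ Fin 7 × Fin 6 ⊕ Fin 7 × Fin 10) := by
  refine ⟨Fintype.equivOfCardEq ?_⟩
  simp only [Fintype.card_sum, Fintype.card_coe, Fintype.card_prod, Fintype.card_fin]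
  decide

/-- the class in dimension six -/
def D0 : NInt 10 := (14, fun i => if i.1 = 9 then 9 else 10)

/-- coordinate points and three other points -/
noncomputable def cfg (q : Fin 10 → Fin 7 → ℂ) : Fin 10 → Fin (6 + 1) → ℂ :=
  fun j => if hj : j.1 < 7 then bas ⟨j.1, hj⟩ else q j

lemma card_rows (i : Fin 7) :
    (univ.filter (fun r : Fin 7 × Fin 10 => r.1 = i ∧ 6 ≤ (r.2 : ℕ))).card = 4 := by
  revert i; decide

lemma card_x : (univ.filter (fun s : Sset => s.1.1 = 8)).card = 4 := by decide +kernel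
lemma card_y : (univ.filter (fun s : Sset => s.1.2 = 8)).card = 4 := by decide +kernel
lemma card_w : (univ.filter (fun s : Sset => s.1.1 + s.1.2 = 4)).card = 5 := by decide +kernel

lemma eff_cfg (e : Sset ⊕ Tset ≃ Fin 7 × Fin 6 ⊕ Fin 7 × Fin 10) (q : Fin 10 → Fin 7 → ℂ)
    (v : Fin 7 → ℂ) (h : dt e (MM (q 7) (q 8) (q 9) v) ≠ 0) : IsEffective (cfg q) D0 := by
  refine ⟨by norm_num [D0], FF e (q 7) (q 8) (q 9), ?_, homog_FF e _ _ _, ?_⟩
  · intro h0
    apply h
    rw [← eval_FF, h0, map_zero]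
  · have hbas : ∀ i : Fin 7, FF e (q 7) (q 8) (q 9) ∈
        (RingHom.ker (MvPolynomial.eval (bas (n := 6) i))) ^ 10 := by
      intro i
      apply mem_of_natDegree (homog_FF e _ _ _)
      intro u
      rw [line_FF, dt_line e (q 7) (q 8) (q 9) u (bas (n := 6) i)
        (Am (-Pi.single i 1 : Fin 7 → ℂ) (0, 0)) 0]
      have h1 := deg_rows e (PP (q 7) (q 8) (q 9)) (QQ (q 7) (q 8) (q 9) u)
        (QQ (q 7) (q 8) (q 9) (bas (n := 6) i) + Am (-Pi.single i 1 : Fin 7 → ℂ) (0, 0) *
          PP (q 7) (q 8) (q 9) + NN (q 7) (q 8) (q 9) * (0 : Matrix Tset Sset ℂ))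
        (NN (q 7) (q 8) (q 9)) (univ.filter (fun r : Fin 7 × Fin 10 => r.1 = i ∧ 6 ≤ (r.2 : ℕ)))
        (fun r s hr => by
          apply err_e
          intro h2
          exact hr (mem_filter.2 ⟨mem_univ _, h2⟩))
      rw [card_rows] at h1
      omega
    have hx : FF e (q 7) (q 8) (q 9) ∈ (RingHom.ker (MvPolynomial.eval (q 7))) ^ 10 := by
      apply mem_of_natDegree (homog_FF e _ _ _)
      intro u
      rw [line_FF, dt_line e (q 7) (q 8) (q 9) u (q 7) (Am 1 (1, 0)) (Bm (1, 0))]
      have h1 := deg_cols e (PP (q 7) (q 8) (q 9)) (QQ (q 7) (q 8) (q 9) u)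
        (QQ (q 7) (q 8) (q 9) (q 7) + Am 1 (1, 0) *
          PP (q 7) (q 8) (q 9) + NN (q 7) (q 8) (q 9) * (Bm (1, 0) : Matrix Tset Sset ℂ))
        (NN (q 7) (q 8) (q 9)) (univ.filter (fun s : Sset => s.1.1 = 8))
        (fun r s hr => by
          apply err_x
          intro h2
          exact hr (mem_filter.2 ⟨mem_univ _, h2⟩))
      rw [card_x] at h1
      exact Nat.add_le_add_right h1 10
    have hy : FF e (q 7) (q 8) (q 9) ∈ (RingHom.ker (MvPolynomial.eval (q 8))) ^ 10 := by
      apply mem_of_natDegree (homog_FF e _ _ _)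
      intro u
      rw [line_FF, dt_line e (q 7) (q 8) (q 9) u (q 8) (Am 1 (0, 1)) (Bm (0, 1))]
      have h1 := deg_cols e (PP (q 7) (q 8) (q 9)) (QQ (q 7) (q 8) (q 9) u)
        (QQ (q 7) (q 8) (q 9) (q 8) + Am 1 (0, 1) *
          PP (q 7) (q 8) (q 9) + NN (q 7) (q 8) (q 9) * (Bm (0, 1) : Matrix Tset Sset ℂ))
        (NN (q 7) (q 8) (q 9)) (univ.filter (fun s : Sset => s.1.2 = 8))
        (fun r s hr => by
          apply err_y
          intro h2
          exact hr (mem_filter.2 ⟨mem_univ _, h2⟩))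
      rw [card_y] at h1
      exact Nat.add_le_add_right h1 10
    have hw : FF e (q 7) (q 8) (q 9) ∈ (RingHom.ker (MvPolynomial.eval (q 9))) ^ 9 := by
      apply mem_of_natDegree (homog_FF e _ _ _)
      intro u
      rw [line_FF, dt_line e (q 7) (q 8) (q 9) u (q 9) (Am 0 (0, 0)) (Bm (0, 0))]
      have h1 := deg_cols e (PP (q 7) (q 8) (q 9)) (QQ (q 7) (q 8) (q 9) u)
        (QQ (q 7) (q 8) (q 9) (q 9) + Am 0 (0, 0) *
          PP (q 7) (q 8) (q 9) + NN (q 7) (q 8) (q 9) * (Bm (0, 0) : Matrix Tset Sset ℂ))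
        (NN (q 7) (q 8) (q 9)) (univ.filter (fun s : Sset => s.1.1 + s.1.2 = 4))
        (fun r s hr => by
          apply err_w
          intro h2
          exact hr (mem_filter.2 ⟨mem_univ _, h2⟩))
      rw [card_w] at h1
      exact Nat.add_le_add_right h1 9
    intro j
    unfold VanishesToOrder
    have hj := j.2
    by_cases h7 : j.1 < 7
    · have h1 : cfg q j = bas ⟨j.1, h7⟩ := dif_pos h7
      have h2 : D0.2 j = 10 := if_neg (by omega)
      rw [h1, h2]
      exact hbas _
    · have h1 : cfg q j = q j := dif_neg h7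
      rw [h1]
      have h8 : j = 7 ∨ j = 8 ∨ j = 9 := by
        rcases (show j.1 = 7 ∨ j.1 = 8 ∨ j.1 = 9 by omega) with h | h | h
        · exact Or.inl (Fin.ext h)
        · exact Or.inr (Or.inl (Fin.ext h))
        · exact Or.inr (Or.inr (Fin.ext h))
      rcases h8 with rfl | rfl | rfl
      · exact hx
      · exact hy
      · exact hw

/-- embedding of indices -/
def em (k : Fin 7) : Fin 10 := ⟨k.1, by omega⟩

/-- the matrix of the first seven vectors -/
def mat {R : Type*} (q : Fin 10 × Fin 7 → R) : Matrix (Fin (6 + 1)) (Fin (6 + 1)) R :=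
  fun l k => q (em k, l)

/-- configuration with moved coordinates -/
def mv {R : Type*} [CommRing R] (q : Fin 10 × Fin 7 → R) (j : Fin 10) (l : Fin 7) : R :=
  if j.1 < 7 then q (j, l) else ∑ k, mat q l k * q (j, k)

lemma mv_eq (q : Fin 10 → Fin 7 → ℂ) (j : Fin 10) :
    mv (flat (n := 6) q) j = (mat (flat (n := 6) q)).mulVec (cfg q j) := by
  funext l
  by_cases hj : j.1 < 7
  · have h1 : cfg q j = bas ⟨j.1, hj⟩ := dif_pos hj
    rw [h1, mv, if_pos hj]
    simp only [bas, Matrix.mulVec_single_one]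
    rfl
  · have h1 : cfg q j = q j := dif_neg hj
    rw [h1, mv, if_neg hj]
    rfl

/-- The class is effective for every configuration of ten points. -/
theorem effAll_D0 : EffAll 6 D0 := by
  classical
  obtain ⟨e⟩ := exists_equiv
  by_contra hcon
  unfold EffAll at hcon
  push Not at hcon
  obtain ⟨p', hp'⟩ := hcon
  obtain ⟨G, hG0, hG⟩ := exists_poly _ p' hp'
  let G' : MvPolynomial (Fin 10 × Fin 7) ℂ :=
    aeval (fun jl : Fin 10 × Fin 7 => mv (fun a => (X a : MvPolynomial (Fin 10 × Fin 7) ℂ)) jl.1 jl.2) G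
  let dA : MvPolynomial (Fin 10 × Fin 7) ℂ :=
    (mat (fun a => (X a : MvPolynomial (Fin 10 × Fin 7) ℂ))).det
  let Φ : MvPolynomial (Fin 10 × Fin 7) ℂ :=
    dt e (MM (fun i => X (7, i)) (fun i => X (8, i)) (fun i => X (9, i)) (fun i => C (vec vN ℂ i)))
  have hdA : ∀ q : Fin 10 → Fin 7 → ℂ, MvPolynomial.eval (flat (n := 6) q) dA =
      (mat (flat (n := 6) q)).det := by
    intro q
    rw [RingHom.map_det]
    congr 1
    ext l k
    simp [mat]
  have hΦ : ∀ q : Fin 10 → Fin 7 → ℂ, MvPolynomial.eval (flat (n := 6) q) Φ =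
      dt e (MM (q 7) (q 8) (q 9) (vec vN ℂ)) := by
    intro q
    change MvPolynomial.eval (flat (n := 6) q) (dt e _) = _
    rw [map_dt, map_MM]
    simp only [eval_X, eval_C]
    rfl
  have hG' : ∀ q : Fin 10 → Fin 7 → ℂ, MvPolynomial.eval (flat (n := 6) q) G' =
      MvPolynomial.eval (flat (n := 6) (fun j => mv (flat (n := 6) q) j)) G := by
    intro q
    have h1 : ((MvPolynomial.eval (flat (n := 6) q)).comp
        (aeval (fun jl : Fin 10 × Fin 7 => mv (fun a => (X a : MvPolynomial (Fin 10 × Fin 7) ℂ))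
          jl.1 jl.2)).toRingHom) =
        MvPolynomial.eval (flat (n := 6) (fun j => mv (flat (n := 6) q) j)) := by
      apply MvPolynomial.ringHom_ext
      · intro r; simp
      · intro jl
        simp only [RingHom.comp_apply, AlgHom.toRingHom_eq_coe, RingHom.coe_coe, aeval_X, eval_X]
        simp only [flat, mv, mat]
        by_cases hj : jl.1.1 < 7
        · rw [if_pos hj, if_pos hj, eval_X]
          rfl
        · rw [if_neg hj, if_neg hj, map_sum]
          refine Finset.sum_congr rfl fun k _ => ?_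
          rw [map_mul, eval_X, eval_X]
          rfl
    exact DFunLike.congr_fun h1 G
  have hdA0 : dA ≠ 0 := by
    intro h0
    have h1 := hdA (fun j => if hj : j.1 < 7 then Pi.single ⟨j.1, hj⟩ 1 else 0)
    rw [h0, map_zero] at h1
    have h2 : mat (flat (n := 6) (fun j : Fin 10 => if hj : j.1 < 7 then
        (Pi.single (⟨j.1, hj⟩ : Fin 7) 1 : Fin 7 → ℂ) else 0)) = 1 := by
      ext l k
      have hk : (em k).1 < 7 := k.2
      simp only [mat, flat]
      rw [dif_pos hk]
      have hk' : (⟨(em k).1, hk⟩ : Fin 7) = k := rfl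
      rw [hk', Matrix.one_apply, Pi.single_apply]
    rw [h2, Matrix.det_one] at h1
    exact zero_ne_one h1
  have hΦ0 : Φ ≠ 0 := by
    intro h0
    have h1 := hΦ (fun j => if j = 7 then vec xN ℂ else if j = 8 then vec yN ℂ else vec wN ℂ)
    rw [h0, map_zero] at h1
    exact dt_ne e h1.symm
  have hz1 : G' * (dA * Φ) = 0 := by
    apply MvPolynomial.funext
    intro q'
    obtain ⟨q, hq⟩ : ∃ q : Fin 10 → Fin 7 → ℂ, flat (n := 6) q = q' := ⟨fun i l => q' (i, l), rfl⟩
    rw [← hq, map_zero, map_mul, map_mul, hdA, hΦ, hG']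
    by_cases h1 : (mat (flat (n := 6) q)).det = 0
    · rw [h1]; simp
    by_cases h2 : dt e (MM (q 7) (q 8) (q 9) (vec vN ℂ)) = 0
    · rw [h2]; simp
    have h3 := effective_linear (eff_cfg e q _ h2) (mat (flat (n := 6) q)) (isUnit_iff_ne_zero.2 h1)
    have h4 : (fun i => (mat (flat (n := 6) q)).mulVec (cfg q i)) =
        fun j => mv (flat (n := 6) q) j := by
      funext j; exact (mv_eq q j).symm
    rw [h4] at h3
    rw [hG _ h3, zero_mul]
  have hG'0 : G' = 0 := by
    rcases mul_eq_zero.1 hz1 with h1 | h1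
    · exact h1
    · rcases mul_eq_zero.1 h1 with h2 | h2
      · exact absurd h2 hdA0
      · exact absurd h2 hΦ0
  have hz2 : G * dA = 0 := by
    apply MvPolynomial.funext
    intro q'
    obtain ⟨p, hq⟩ : ∃ p : Fin 10 → Fin 7 → ℂ, flat (n := 6) p = q' := ⟨fun i l => q' (i, l), rfl⟩
    rw [← hq, map_zero, map_mul, hdA]
    by_cases h1 : (mat (flat (n := 6) p)).det = 0
    · rw [h1, mul_zero]
    set A := mat (flat (n := 6) p) with hA
    let q : Fin 10 → Fin 7 → ℂ := fun j => if j.1 < 7 then p j else A⁻¹.mulVec (p j)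
    have hAq : mat (flat (n := 6) q) = A := by
      ext l k
      have hk : (em k).1 < 7 := k.2
      change (if (em k).1 < 7 then p (em k) else A⁻¹.mulVec (p (em k))) l = p (em k) l
      rw [if_pos hk]
    have hpq : (fun j => mv (flat (n := 6) q) j) = p := by
      funext j
      by_cases hj : j.1 < 7
      · funext l
        have h2 : mv (flat (n := 6) q) j l = q j l := if_pos hj
        rw [h2]
        change (if j.1 < 7 then p j else A⁻¹.mulVec (p j)) l = p j l
        rw [if_pos hj]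
      · rw [mv_eq, hAq]
        have h2 : cfg q j = q j := dif_neg hj
        have h3 : q j = A⁻¹.mulVec (p j) := if_neg hj
        rw [h2, h3, Matrix.mulVec_mulVec, Matrix.mul_nonsing_inv _ (isUnit_iff_ne_zero.2 h1),
          Matrix.one_mulVec]
    have h5 := hG' q
    rw [hpq, hG'0, map_zero] at h5
    rw [← h5, zero_mul]
  rcases mul_eq_zero.1 hz2 with h1 | h1
  · exact hG0 h1
  · exact hdA0 h1

/-! ### Cones -/

/-- a space of dimension at least `m` maps onto `m`-space -/
lemma exists_surj {V : Type} [AddCommGroup V] [Module ℂ V] [Module.Finite ℂ V] {m : ℕ}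
    (h : m ≤ Module.finrank ℂ V) : ∃ f : V →ₗ[ℂ] (Fin m → ℂ), Function.Surjective f := by
  let b := Module.finBasis ℂ V
  let g : (Fin (Module.finrank ℂ V) → ℂ) →ₗ[ℂ] (Fin m → ℂ) := LinearMap.funLeft ℂ ℂ (Fin.castLE h)
  have hg : Function.Surjective g := LinearMap.funLeft_surjective_of_injective ℂ ℂ _
    (Fin.castLE_injective h)
  exact ⟨g.comp b.equivFun.toLinearMap, hg.comp b.equivFun.surjective⟩

/-- pullback of a form by a linear map -/
noncomputable def pull {m n : ℕ} (π : (Fin (m + 1) → ℂ) →ₗ[ℂ] (Fin (n + 1) → ℂ)) :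
    MvPolynomial (Fin (n + 1)) ℂ →ₐ[ℂ] MvPolynomial (Fin (m + 1)) ℂ :=
  aeval (fun l => ∑ k, C (π (Pi.single k 1) l) * X k)

lemma eval_pull {m n : ℕ} (π : (Fin (m + 1) → ℂ) →ₗ[ℂ] (Fin (n + 1) → ℂ))
    (x : Fin (m + 1) → ℂ) (f : MvPolynomial (Fin (n + 1)) ℂ) :
    MvPolynomial.eval x (pull π f) = MvPolynomial.eval (π x) f := by
  have h : ((MvPolynomial.eval x).comp (pull π).toRingHom) = MvPolynomial.eval (π x) := by
    apply MvPolynomial.ringHom_ext
    · intro r; simp [pull]
    · intro l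
      simp only [RingHom.comp_apply, AlgHom.toRingHom_eq_coe, RingHom.coe_coe, pull, aeval_X,
        eval_X, map_sum, map_mul, eval_C]
      have h1 : π x = ∑ k, x k • π (Pi.single k 1) := by
        conv_lhs => rw [← Finset.univ_sum_single x]
        rw [map_sum]
        refine Finset.sum_congr rfl fun k _ => ?_
        rw [← map_smul]
        congr 1
        ext l
        by_cases hl : l = k
        · subst hl; simp
        · simp [hl]
      rw [h1, Finset.sum_apply]
      refine Finset.sum_congr rfl fun k _ => ?_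
      rw [Pi.smul_apply, smul_eq_mul, mul_comm]
  exact DFunLike.congr_fun h f

lemma pull_mem {m n : ℕ} (π : (Fin (m + 1) → ℂ) →ₗ[ℂ] (Fin (n + 1) → ℂ))
    (x : Fin (m + 1) → ℂ) (f : MvPolynomial (Fin (n + 1)) ℂ) (k : ℕ)
    (hf : f ∈ (RingHom.ker (MvPolynomial.eval (π x))) ^ k) :
    pull π f ∈ (RingHom.ker (MvPolynomial.eval x)) ^ k := by
  have hle : Ideal.map (pull π) (RingHom.ker (MvPolynomial.eval (π x))) ≤
      RingHom.ker (MvPolynomial.eval x) := by
    rw [Ideal.map_le_iff_le_comap]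
    intro g hg
    rw [Ideal.mem_comap, RingHom.mem_ker, eval_pull]
    exact hg
  have h1 := Ideal.mem_map_of_mem (pull π) hf
  rw [Ideal.map_pow] at h1
  exact Ideal.pow_right_mono hle _ h1

lemma homog_mem_zero {n d : ℕ} {f : MvPolynomial (Fin (n + 1)) ℂ} (hf : f.IsHomogeneous d) :
    f ∈ (RingHom.ker (MvPolynomial.eval (0 : Fin (n + 1) → ℂ))) ^ d := by
  rw [ker_eval_zero, mem_pow_idealOfVars_iff']
  intro b hb
  by_contra h
  have := homog_degree hf (mem_support_iff.2 h)
  omega

/-- the class in all dimensions -/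
def DD (n : ℕ) : NInt (n + 4) :=
  (14, fun i => if i.1 < 9 then 10 else if i.1 = 9 then 9 else 14)

theorem effAll_DD (n : ℕ) (hn : 6 ≤ n) : EffAll n (DD n) := by
  classical
  intro p
  let idx : Fin (n - 6) → Fin (n + 4) := fun i => ⟨i.1 + 10, by have := i.2; omega⟩
  let W : Submodule ℂ (Fin (n + 1) → ℂ) := Submodule.span ℂ (Set.range fun i => p (idx i))
  have hW : Module.finrank ℂ W ≤ n - 6 := by
    have h1 := finrank_range_le_card (R := ℂ) (fun i => p (idx i))
    simpa [Set.finrank] using h1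
  have hQ : 7 ≤ Module.finrank ℂ ((Fin (n + 1) → ℂ) ⧸ W) := by
    have h1 := Submodule.finrank_quotient_add_finrank W
    rw [Module.finrank_fin_fun] at h1
    omega
  obtain ⟨g, hg⟩ := exists_surj hQ
  let π : (Fin (n + 1) → ℂ) →ₗ[ℂ] (Fin (6 + 1) → ℂ) := g.comp W.mkQ
  have hπ : Function.Surjective π := hg.comp W.mkQ_surjective
  have hπ0 : ∀ i : Fin (n + 4), 10 ≤ i.1 → π (p i) = 0 := by
    intro i hi
    have h1 : p i ∈ W := by
      apply Submodule.subset_span
      have := i.2
      refine ⟨⟨i.1 - 10, by omega⟩, ?_⟩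
      change p (idx ⟨i.1 - 10, by omega⟩) = p i
      congr 1
      apply Fin.ext
      change i.1 - 10 + 10 = i.1
      omega
    change g (W.mkQ (p i)) = 0
    rw [Submodule.mkQ_apply, (Submodule.Quotient.mk_eq_zero W).2 h1, map_zero]
  obtain ⟨_, f, hf0, hf, hm⟩ := effAll_D0 (fun j => π (p ⟨j.1, by omega⟩))
  refine ⟨by norm_num [DD], pull π f, ?_, ?_, ?_⟩
  · intro h0
    apply hf0
    apply MvPolynomial.funext
    intro y
    obtain ⟨x, rfl⟩ := hπ y
    rw [← eval_pull, h0, map_zero, map_zero]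
  · have h2 := hf.aeval (fun l => ∑ k, C (π (Pi.single k 1) l) * X k) (n := 1) (S := ℂ) (fun l => by
      refine MvPolynomial.IsHomogeneous.sum _ _ _ fun k _ => ?_
      have := (isHomogeneous_C (Fin (n + 1)) (π (Pi.single k 1) l)).mul (isHomogeneous_X ℂ k)
      simpa using this)
    rw [one_mul] at h2
    exact h2
  · intro i
    unfold VanishesToOrder
    by_cases h1 : i.1 < 9
    · have h2 : (DD n).2 i = 10 := if_pos h1
      rw [h2]
      apply pull_mem
      have h3 := hm ⟨i.1, by omega⟩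
      unfold VanishesToOrder at h3
      have h4 : D0.2 ⟨i.1, by omega⟩ = 10 := if_neg (by simp; omega)
      rw [h4] at h3
      exact h3
    · by_cases h5 : i.1 = 9
      · have h2 : (DD n).2 i = 9 := by
          change (if i.1 < 9 then (10 : ℤ) else if i.1 = 9 then 9 else 14) = 9
          rw [if_neg h1, if_pos h5]
        rw [h2]
        apply pull_mem
        have h3 := hm ⟨i.1, by omega⟩
        unfold VanishesToOrder at h3
        have h4 : D0.2 ⟨i.1, by omega⟩ = 9 := if_pos h5
        rw [h4] at h3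
        exact h3
      · have h2 : (DD n).2 i = 14 := by
          change (if i.1 < 9 then (10 : ℤ) else if i.1 = 9 then 9 else 14) = 14
          rw [if_neg h1, if_neg h5]
        rw [h2]
        apply pull_mem
        rw [hπ0 i (by omega)]
        exact homog_mem_zero hf

lemma sum_DD (n : ℕ) (hn : 6 ≤ n) : ∑ i, (DD n).2 i = ((n : ℤ) + 1) * 14 + 1 := by
  obtain ⟨k, rfl⟩ := Nat.exists_eq_add_of_le hn
  have h1 : ∑ i : Fin (6 + k + 4), (DD (6 + k)).2 i =
      ∑ i ∈ range (6 + k + 4), (if i < 9 then (10 : ℤ) else if i = 9 then 9 else 14) :=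
    Fin.sum_univ_eq_sum_range (fun i => if i < 9 then (10 : ℤ) else if i = 9 then 9 else 14) _
  rw [h1]
  have h2 : 6 + k + 4 = 10 + k := by ring
  rw [h2, Finset.sum_range_add]
  have h3 : ∑ x ∈ range k, (if 10 + x < 9 then (10 : ℤ) else if 10 + x = 9 then 9 else 14) =
      k * 14 := by
    rw [Finset.sum_congr rfl (g := fun _ => (14 : ℤ))]
    · simp
    · intro x _
      rw [if_neg (by omega), if_neg (by omega)]
  rw [h3]
  have h4 : ∑ x ∈ range 10, (if x < 9 then (10 : ℤ) else if x = 9 then 9 else 14) = 99 := by decide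
  rw [h4]
  push_cast
  ring

end Pool.Agent.V1157.WB
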