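import Pool.Agent.V1157.WB.Deg

/-!
The determinant which defines a hypersurface of degree 14 in projective 6-space with
multiplicities 10 at nine points and 9 at a tenth one.
-/

set_option autoImplicit false

namespace Pool.Agent.V1157.WB

open Finset MvPolynomial Pool.Agent.H689R3.Weyl

/-- exponents of the monomials `x ^ i y ^ j w ^ (11 - i - j)` with all exponents in range -/
def Sset : Finset (ℕ × ℕ) := (range 9 ×ˢ range 9).filter (fun e => 4 ≤ e.1 + e.2 ∧ e.1 + e.2 ≤ 11)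

/-- exponents of the monomials `x ^ i y ^ j w ^ (12 - i - j)` with all exponents in range -/
def Tset : Finset (ℕ × ℕ) := (range 9 ×ˢ range 9).filter (fun e => 5 ≤ e.1 + e.2 ∧ e.1 + e.2 ≤ 12)

/-- derivatives of order at most two -/
def du : Fin 6 → ℕ × ℕ := ![(0, 0), (1, 0), (0, 1), (2, 0), (1, 1), (0, 2)]

/-- derivatives of order at most three -/
def dl : Fin 10 → ℕ × ℕ :=
  ![(0, 0), (1, 0), (0, 1), (2, 0), (1, 1), (0, 2), (3, 0), (2, 1), (1, 2), (0, 3)]

section ring

variable {R : Type*} [CommRing R]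

/-- divided derivative of a monomial -/
def jet (e d : ℕ × ℕ) (k : ℕ) (x y w : R) : R :=
  (e.1.choose d.1 : R) * (e.2.choose d.2 : R) * x ^ (e.1 - d.1) * y ^ (e.2 - d.2) * w ^ k

lemma jet_w (e d : ℕ × ℕ) (k : ℕ) (x y w : R) : jet e d (k + 1) x y w = w * jet e d k x y w := by
  unfold jet; ring

lemma jet_x (a b α β k : ℕ) (x y w : R) : jet (a + 1, b) (α, β) k x y w =
    x * jet (a, b) (α, β) k x y w + if α = 0 then 0 else jet (a, b) (α - 1, β) k x y w := by
  unfold jet
  rcases α with _ | α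
  · simp only [Nat.choose_zero_right, Nat.sub_zero, if_true, add_zero, pow_succ]; ring
  · rw [if_neg (Nat.succ_ne_zero _), Nat.add_sub_cancel]
    simp only [Nat.choose_succ_succ, Nat.cast_add]
    have h1 : a + 1 - (α + 1) = a - α := by omega
    rw [h1]
    by_cases h : a < α + 1
    · rw [Nat.choose_eq_zero_of_lt h]; simp
    · push Not at h
      have h2 : a - α = (a - (α + 1)) + 1 := by omega
      rw [h2, pow_succ]; ring

lemma jet_y (a b α β k : ℕ) (x y w : R) : jet (a, b + 1) (α, β) k x y w =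
    y * jet (a, b) (α, β) k x y w + if β = 0 then 0 else jet (a, b) (α, β - 1) k x y w := by
  unfold jet
  rcases β with _ | β
  · simp only [Nat.choose_zero_right, Nat.sub_zero, if_true, add_zero, pow_succ]; ring
  · rw [if_neg (Nat.succ_ne_zero _), Nat.add_sub_cancel]
    simp only [Nat.choose_succ_succ, Nat.cast_add]
    have h1 : b + 1 - (β + 1) = b - β := by omega
    rw [h1]
    by_cases h : b < β + 1
    · rw [Nat.choose_eq_zero_of_lt h]; simp
    · push Not at h
      have h2 : b - β = (b - (β + 1)) + 1 := by omega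
      rw [h2, pow_succ]; ring

/-- upper left block -/
def PP (x y w : Fin 7 → R) : Matrix (Fin 7 × Fin 6) Sset R :=
  fun r s => jet s.1 (du r.2) (11 - s.1.1 - s.1.2) (x r.1) (y r.1) (w r.1)

/-- lower left block -/
def QQ (x y w v : Fin 7 → R) : Matrix (Fin 7 × Fin 10) Sset R :=
  fun r s => v r.1 * jet s.1 (dl r.2) (11 - s.1.1 - s.1.2) (x r.1) (y r.1) (w r.1)

/-- lower right block -/
def NN (x y w : Fin 7 → R) : Matrix (Fin 7 × Fin 10) Tset R :=
  fun r s => jet s.1 (dl r.2) (12 - s.1.1 - s.1.2) (x r.1) (y r.1) (w r.1)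

/-- the matrix -/
def MM (x y w v : Fin 7 → R) : Matrix (Fin 7 × Fin 6 ⊕ Fin 7 × Fin 10) (Sset ⊕ Tset) R :=
  Matrix.fromBlocks (PP x y w) 0 (QQ x y w v) (NN x y w)

lemma map_jet {R' : Type*} [CommRing R'] (φ : R →+* R') (e d : ℕ × ℕ) (k : ℕ) (x y w : R) :
    φ (jet e d k x y w) = jet e d k (φ x) (φ y) (φ w) := by
  simp [jet]

lemma map_MM {R' : Type*} [CommRing R'] (φ : R →+* R') (x y w v : Fin 7 → R) :
    (MM x y w v).map φ = MM (fun i => φ (x i)) (fun i => φ (y i)) (fun i => φ (w i))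
      (fun i => φ (v i)) := by
  ext r c
  rcases r with r | r <;> rcases c with c | c <;>
    simp [MM, PP, QQ, NN, map_jet]

/-! ### The three moves -/

/-- column operation matrix: multiplication by a monomial `x ^ a y ^ b` -/
def Bm (d : ℕ × ℕ) : Matrix Tset Sset R := fun t s => if t.1 = s.1 + d then -1 else 0

lemma NN_Bm (x y w : Fin 7 → R) (d : ℕ × ℕ) (r : Fin 7 × Fin 10) (s : Sset) :
    (NN x y w * (Bm d : Matrix Tset Sset R) : Matrix (Fin 7 × Fin 10) Sset R) r s = if s.1 + d ∈ Tset then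
      - jet (s.1 + d) (dl r.2) (12 - (s.1 + d).1 - (s.1 + d).2) (x r.1) (y r.1) (w r.1) else 0 := by
  rw [Matrix.mul_apply]
  by_cases h : s.1 + d ∈ Tset
  · rw [if_pos h, Finset.sum_eq_single ⟨s.1 + d, h⟩]
    · simp [Bm, NN]
    · intro t _ ht
      have : ¬ t.1 = s.1 + d := fun h1 => ht (Subtype.ext h1)
      simp [Bm, this]
    · intro h1; exact absurd (mem_univ _) h1
  · rw [if_neg h]
    refine Finset.sum_eq_zero fun t _ => ?_
    have : ¬ t.1 = s.1 + d := fun h1 => h (h1 ▸ t.2)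
    simp [Bm, this]

/-- row operation matrix: lowering a derivative by `d` -/
def Am (c : Fin 7 → R) (d : ℕ × ℕ) : Matrix (Fin 7 × Fin 10) (Fin 7 × Fin 6) R :=
  fun l u => if l.1 = u.1 ∧ dl l.2 = du u.2 + d then c l.1 else 0

lemma Am_PP (x y w c : Fin 7 → R) (d : ℕ × ℕ) (r : Fin 7 × Fin 10) (s : Sset) :
    (Am c d * PP x y w) r s = c r.1 * ∑ u, if dl r.2 = du u + d then
      jet s.1 (du u) (11 - s.1.1 - s.1.2) (x r.1) (y r.1) (w r.1) else 0 := by
  rw [Matrix.mul_apply, Fintype.sum_prod_type, Finset.sum_eq_single r.1]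
  · rw [Finset.mul_sum]
    refine Finset.sum_congr rfl fun u _ => ?_
    by_cases h : dl r.2 = du u + d <;> simp [Am, PP, h]
  · intro i _ hi
    refine Finset.sum_eq_zero fun u _ => ?_
    simp [Am, Ne.symm hi]
  · intro h; exact absurd (mem_univ _) h

lemma low_x (e : ℕ × ℕ) (k : ℕ) (x y w : R) (l : Fin 10) :
    (∑ u, if dl l = du u + (1, 0) then jet e (du u) k x y w else 0) =
      if (dl l).1 = 0 then 0 else jet e ((dl l).1 - 1, (dl l).2) k x y w := by
  rw [Fin.sum_univ_six]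
  fin_cases l <;> simp [du, dl]

lemma low_y (e : ℕ × ℕ) (k : ℕ) (x y w : R) (l : Fin 10) :
    (∑ u, if dl l = du u + (0, 1) then jet e (du u) k x y w else 0) =
      if (dl l).2 = 0 then 0 else jet e ((dl l).1, (dl l).2 - 1) k x y w := by
  rw [Fin.sum_univ_six]
  fin_cases l <;> simp [du, dl]

lemma low_0 (e : ℕ × ℕ) (k : ℕ) (x y w : R) (l : Fin 10) :
    (∑ u, if dl l = du u + (0, 0) then jet e (du u) k x y w else 0) =
      if 6 ≤ (l : ℕ) then 0 else jet e (dl l) k x y w := by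
  rw [Fin.sum_univ_six]
  fin_cases l <;> simp [du, dl]

lemma mem_S {e : ℕ × ℕ} : e ∈ Sset ↔ (e.1 < 9 ∧ e.2 < 9) ∧ 4 ≤ e.1 + e.2 ∧ e.1 + e.2 ≤ 11 := by
  unfold Sset; rw [mem_filter, mem_product, mem_range, mem_range]

lemma mem_T {e : ℕ × ℕ} : e ∈ Tset ↔ (e.1 < 9 ∧ e.2 < 9) ∧ 5 ≤ e.1 + e.2 ∧ e.1 + e.2 ≤ 12 := by
  unfold Tset; rw [mem_filter, mem_product, mem_range, mem_range]

/-- the error term of the first move -/
lemma err_x (x y w : Fin 7 → R) (r : Fin 7 × Fin 10) (s : Sset) (hs : s.1.1 ≠ 8) :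
    (QQ x y w x + Am (1 : Fin 7 → R) (1, 0) * PP x y w +
      NN x y w * (Bm (1, 0) : Matrix Tset Sset R) : Matrix (Fin 7 × Fin 10) Sset R) r s = 0 := by
  have h := mem_S.1 s.2
  have h1 : s.1 + (1, 0) ∈ Tset := by
    rw [mem_T]; simp only [Prod.fst_add, Prod.snd_add]; omega
  rw [Matrix.add_apply, Matrix.add_apply, Am_PP, NN_Bm, if_pos h1, low_x]
  have h2 : (s.1 + (1, 0)) = (s.1.1 + 1, s.1.2) := by ext <;> simp
  have h3 : 12 - (s.1.1 + 1) - s.1.2 = 11 - s.1.1 - s.1.2 := by omega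
  rw [h2]
  have h4 := jet_x s.1.1 s.1.2 (dl r.2).1 (dl r.2).2 (11 - s.1.1 - s.1.2) (x r.1) (y r.1) (w r.1)
  simp only [Prod.mk.eta] at h4
  simp only [h3, h4, QQ, Pi.one_apply, one_mul]
  ring

lemma err_y (x y w : Fin 7 → R) (r : Fin 7 × Fin 10) (s : Sset) (hs : s.1.2 ≠ 8) :
    (QQ x y w y + Am (1 : Fin 7 → R) (0, 1) * PP x y w +
      NN x y w * (Bm (0, 1) : Matrix Tset Sset R) : Matrix (Fin 7 × Fin 10) Sset R) r s = 0 := by
  have h := mem_S.1 s.2
  have h1 : s.1 + (0, 1) ∈ Tset := by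
    rw [mem_T]; simp only [Prod.fst_add, Prod.snd_add]; omega
  rw [Matrix.add_apply, Matrix.add_apply, Am_PP, NN_Bm, if_pos h1, low_y]
  have h2 : (s.1 + (0, 1)) = (s.1.1, s.1.2 + 1) := by ext <;> simp
  have h3 : 12 - s.1.1 - (s.1.2 + 1) = 11 - s.1.1 - s.1.2 := by omega
  rw [h2]
  have h4 := jet_y s.1.1 s.1.2 (dl r.2).1 (dl r.2).2 (11 - s.1.1 - s.1.2) (x r.1) (y r.1) (w r.1)
  simp only [Prod.mk.eta] at h4
  simp only [h3, h4, QQ, Pi.one_apply, one_mul]
  ring

lemma err_w (x y w : Fin 7 → R) (r : Fin 7 × Fin 10) (s : Sset) (hs : s.1.1 + s.1.2 ≠ 4) :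
    (QQ x y w w + Am (0 : Fin 7 → R) (0, 0) * PP x y w +
      NN x y w * (Bm (0, 0) : Matrix Tset Sset R) : Matrix (Fin 7 × Fin 10) Sset R) r s = 0 := by
  have h := mem_S.1 s.2
  have h2 : (s.1 + (0, 0)) = s.1 := by ext <;> simp
  have h1 : s.1 + (0, 0) ∈ Tset := by
    rw [h2, mem_T]; omega
  rw [Matrix.add_apply, Matrix.add_apply, Am_PP, NN_Bm, if_pos h1]
  have h3 : 12 - s.1.1 - s.1.2 = (11 - s.1.1 - s.1.2) + 1 := by omega
  rw [h2, h3, jet_w]
  simp only [QQ, Pi.zero_apply, zero_mul]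
  ring

lemma err_e (x y w : Fin 7 → R) (i : Fin 7) (r : Fin 7 × Fin 10) (s : Sset)
    (hr : ¬ (r.1 = i ∧ 6 ≤ (r.2 : ℕ))) :
    (QQ x y w (Pi.single i 1) + Am (-Pi.single i 1 : Fin 7 → R) (0, 0) * PP x y w +
      NN x y w * (0 : Matrix Tset Sset R) : Matrix (Fin 7 × Fin 10) Sset R) r s = 0 := by
  rw [Matrix.add_apply, Matrix.add_apply, Am_PP, low_0, Matrix.mul_zero]
  by_cases h1 : r.1 = i
  · have h2 : ¬ 6 ≤ (r.2 : ℕ) := fun h => hr ⟨h1, h⟩
    rw [if_neg h2]
    simp [QQ, h1]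
  · simp [QQ, h1]

end ring

/-! ### Degrees along lines -/

/-- constant polynomials -/
noncomputable def cc (x : Fin 7 → ℂ) : Fin 7 → Polynomial ℂ := fun i => Polynomial.C (x i)

/-- The matrix on a line. -/
lemma dt_line (e : Sset ⊕ Tset ≃ Fin 7 × Fin 6 ⊕ Fin 7 × Fin 10) (x y w v p : Fin 7 → ℂ)
    (A : Matrix (Fin 7 × Fin 10) (Fin 7 × Fin 6) ℂ) (B : Matrix Tset Sset ℂ) :
    dt e (MM (cc x) (cc y) (cc w)
      (fun i => Polynomial.C (v i) + Polynomial.C (p i) * Polynomial.X)) =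
    dt e (Matrix.fromBlocks ((PP x y w).map Polynomial.C) 0
      ((QQ x y w v).map Polynomial.C + (Polynomial.X : Polynomial ℂ) •
        (QQ x y w p + A * PP x y w + NN x y w * B).map Polynomial.C)
      ((NN x y w).map Polynomial.C)) := by
  have hP : PP (cc x) (cc y) (cc w) = (PP x y w).map Polynomial.C := by
    ext1 r s; simp [PP, cc, map_jet]
  have hN : NN (cc x) (cc y) (cc w) = (NN x y w).map Polynomial.C := by
    ext1 r s; simp [NN, cc, map_jet]
  have hQ : QQ (cc x) (cc y) (cc w)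
      (fun i => Polynomial.C (v i) + Polynomial.C (p i) * Polynomial.X) =
      (QQ x y w v).map Polynomial.C + (Polynomial.X : Polynomial ℂ) •
        (QQ x y w p).map Polynomial.C := by
    ext1 r s
    simp only [QQ, cc, Matrix.add_apply, Matrix.map_apply, Matrix.smul_apply, smul_eq_mul,
      map_mul, map_jet]
    ring
  unfold MM
  rw [hP, hN, hQ]
  rw [← dt_ops e ((PP x y w).map Polynomial.C) _ ((NN x y w).map Polynomial.C)
    ((Polynomial.X : Polynomial ℂ) • A.map Polynomial.C)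
    ((Polynomial.X : Polynomial ℂ) • B.map Polynomial.C)]
  congr 2
  rw [Matrix.smul_mul, Matrix.mul_smul, ← Matrix.map_mul, ← Matrix.map_mul]
  ext1 r s
  simp only [Matrix.add_apply, Matrix.map_apply, Matrix.smul_apply, smul_eq_mul, map_add]
  ring

lemma natDegree_lin (a b : ℂ) :
    (Polynomial.C a + Polynomial.X * Polynomial.C b : Polynomial ℂ).natDegree ≤ 1 := by
  refine (Polynomial.natDegree_add_le _ _).trans ?_
  rw [Polynomial.natDegree_C, mul_comm]
  exact max_le (Nat.zero_le _) ((Polynomial.natDegree_C_mul_le _ _).trans (by simp))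

/-- degree bound with few bad columns -/
lemma deg_cols (e : Sset ⊕ Tset ≃ Fin 7 × Fin 6 ⊕ Fin 7 × Fin 10)
    (P : Matrix (Fin 7 × Fin 6) Sset ℂ) (Q E : Matrix (Fin 7 × Fin 10) Sset ℂ)
    (N : Matrix (Fin 7 × Fin 10) Tset ℂ) (bad : Finset Sset)
    (h : ∀ r s, s ∉ bad → E r s = 0) :
    (dt e (Matrix.fromBlocks (P.map Polynomial.C) 0
      (Q.map Polynomial.C + (Polynomial.X : Polynomial ℂ) • E.map Polynomial.C)
      (N.map Polynomial.C))).natDegree ≤ bad.card := by
  rw [← Finset.card_map (f := (Function.Embedding.inl : Sset ↪ Sset ⊕ Tset))]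
  unfold dt
  apply natDegree_det_cols
  · intro i j hj
    rw [Matrix.submatrix_apply]
    rcases hr : e i with r | r <;> rcases j with s | s
    · simp
    · simp
    · have hs : s ∉ bad := fun h1 => hj (Finset.mem_map_of_mem _ h1)
      simp [h r s hs]
    · simp
  · intro i j
    rw [Matrix.submatrix_apply]
    rcases hr : e i with r | r <;> rcases j with s | s
    · simp
    · simp
    · simp only [id, Matrix.fromBlocks_apply₂₁, Matrix.add_apply, Matrix.map_apply,
        Matrix.smul_apply, smul_eq_mul]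
      exact natDegree_lin _ _
    · simp

/-- degree bound with few bad rows -/
lemma deg_rows (e : Sset ⊕ Tset ≃ Fin 7 × Fin 6 ⊕ Fin 7 × Fin 10)
    (P : Matrix (Fin 7 × Fin 6) Sset ℂ) (Q E : Matrix (Fin 7 × Fin 10) Sset ℂ)
    (N : Matrix (Fin 7 × Fin 10) Tset ℂ) (bad : Finset (Fin 7 × Fin 10))
    (h : ∀ r s, r ∉ bad → E r s = 0) :
    (dt e (Matrix.fromBlocks (P.map Polynomial.C) 0
      (Q.map Polynomial.C + (Polynomial.X : Polynomial ℂ) • E.map Polynomial.C)
      (N.map Polynomial.C))).natDegree ≤ bad.card := by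
  have hcard : ((bad.map (Function.Embedding.inr : Fin 7 × Fin 10 ↪ Fin 7 × Fin 6 ⊕ Fin 7 × Fin 10)).map
      e.symm.toEmbedding).card = bad.card := by
    rw [Finset.card_map, Finset.card_map]
  rw [← hcard]
  unfold dt
  apply natDegree_det_rows
  · intro i j hi
    rw [Matrix.submatrix_apply]
    rcases hr : e i with r | r <;> rcases j with s | s
    · simp
    · simp
    · have hs : r ∉ bad := by
        intro h1
        apply hi
        rw [Finset.mem_map]
        refine ⟨Sum.inr r, Finset.mem_map_of_mem _ h1, ?_⟩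
        rw [← hr]; simp
      simp [h r s hs]
    · simp
  · intro i j
    rw [Matrix.submatrix_apply]
    rcases hr : e i with r | r <;> rcases j with s | s
    · simp
    · simp
    · simp only [id, Matrix.fromBlocks_apply₂₁, Matrix.add_apply, Matrix.map_apply,
        Matrix.smul_apply, smul_eq_mul]
      exact natDegree_lin _ _
    · simp

/-- the form -/
noncomputable def FF (e : Sset ⊕ Tset ≃ Fin 7 × Fin 6 ⊕ Fin 7 × Fin 10) (x y w : Fin 7 → ℂ) :
    MvPolynomial (Fin (6 + 1)) ℂ :=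
  dt e (MM (fun i => C (x i)) (fun i => C (y i)) (fun i => C (w i)) (fun i => X i))

lemma line_FF (e : Sset ⊕ Tset ≃ Fin 7 × Fin 6 ⊕ Fin 7 × Fin 10) (x y w : Fin 7 → ℂ)
    (v p : Fin (6 + 1) → ℂ) : line v p (FF e x y w) =
      dt e (MM (cc x) (cc y) (cc w)
        (fun i => Polynomial.C (v i) + Polynomial.C (p i) * Polynomial.X)) := by
  have h := map_dt (line v p).toRingHom e
    (MM (fun i => C (x i)) (fun i => C (y i)) (fun i => C (w i)) (fun i => X i))
  rw [map_MM] at h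
  have hC : ∀ z : Fin 7 → ℂ, (fun i => (line v p).toRingHom (C (z i))) = cc z := by
    intro z; funext i; simp [line, cc]
  have hX : (fun i => (line v p).toRingHom (X i)) =
      fun i => Polynomial.C (v i) + Polynomial.C (p i) * Polynomial.X := by
    funext i; simp [line]
  rw [hC, hC, hC, hX] at h
  exact h

lemma eval_FF (e : Sset ⊕ Tset ≃ Fin 7 × Fin 6 ⊕ Fin 7 × Fin 10) (x y w v : Fin 7 → ℂ) :
    MvPolynomial.eval v (FF e x y w) = dt e (MM x y w v) := by
  unfold FF
  rw [map_dt, map_MM]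
  simp

lemma homog_FF (e : Sset ⊕ Tset ≃ Fin 7 × Fin 6 ⊕ Fin 7 × Fin 10) (x y w : Fin 7 → ℂ) :
    (FF e x y w).IsHomogeneous 14 := by
  classical
  unfold FF dt
  rw [Matrix.det_apply]
  refine MvPolynomial.IsHomogeneous.sum _ _ _ fun σ _ => ?_
  set M := MM (fun i => (C (x i) : MvPolynomial (Fin (6 + 1)) ℂ)) (fun i => C (y i))
    (fun i => C (w i)) (fun i => X i) with hM
  let wr : Fin 7 × Fin 6 ⊕ Fin 7 × Fin 10 → ℕ := Sum.elim (fun _ => 0) (fun _ => 1)
  let wc : Sset ⊕ Tset → ℕ := Sum.elim (fun _ => 0) (fun _ => 1)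
  have hjet : ∀ (e' d : ℕ × ℕ) (k : ℕ) (a b c : ℂ),
      (jet e' d k (C a) (C b) (C c) : MvPolynomial (Fin (6 + 1)) ℂ) = C (jet e' d k a b c) := by
    intro e' d k a b c
    rw [map_jet]
  have hent : ∀ r c, wc c ≤ wr r → (M r c).IsHomogeneous (wr r - wc c) := by
    intro r c hrc
    rcases r with r | r <;> rcases c with c | c
    · simp only [hM, MM, Matrix.fromBlocks_apply₁₁, PP, hjet]
      exact isHomogeneous_C _ _
    · simp [wr, wc] at hrc
    · simp only [hM, MM, Matrix.fromBlocks_apply₂₁, QQ, hjet]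
      exact (isHomogeneous_X ℂ r.1).mul (isHomogeneous_C _ _)
    · simp only [hM, MM, Matrix.fromBlocks_apply₂₂, NN, hjet]
      exact isHomogeneous_C _ _
  have hzero : ∀ r c, ¬ wc c ≤ wr r → M r c = 0 := by
    intro r c hrc
    rcases r with r | r <;> rcases c with c | c
    · simp [wr, wc] at hrc
    · simp [hM, MM]
    · simp [wr, wc] at hrc
    · simp [wr, wc] at hrc
  have hterm : (∏ i, M (e (σ i)) i).IsHomogeneous 14 := by
    by_cases hall : ∀ i, wc i ≤ wr (e (σ i))
    · have h1 := MvPolynomial.IsHomogeneous.prod (univ : Finset (Sset ⊕ Tset))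
        (fun i => M (e (σ i)) i) (fun i => wr (e (σ i)) - wc i)
        (fun i _ => hent _ _ (hall i))
      have h2 : ∑ i, (wr (e (σ i)) - wc i) = 14 := by
        rw [Finset.sum_tsub_distrib _ (fun i _ => hall i)]
        have h3 : ∑ i, wr (e (σ i)) = ∑ r, wr r := Equiv.sum_comp (σ.trans e) wr
        rw [h3]
        have h4 : ∑ r, wr r = 70 := by
          simp [wr, Fintype.sum_sum_type]
        have h5 : ∑ c, wc c = 56 := by
          simp only [wc, Fintype.sum_sum_type, Sum.elim_inl, Sum.elim_inr, Finset.sum_const_zero,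
            zero_add, Finset.sum_const, smul_eq_mul, mul_one, Finset.card_univ, Fintype.card_coe]
          decide
        rw [h4, h5]
      rw [h2] at h1
      exact h1
    · push Not at hall
      obtain ⟨i, hi⟩ := hall
      have h6 : ∏ i, M (e (σ i)) i = 0 := Finset.prod_eq_zero (f := fun i => M (e (σ i)) i)
        (mem_univ i) (hzero _ _ (not_le.2 hi))
      rw [h6]
      exact isHomogeneous_zero _ _ _
  exact (MvPolynomial.homogeneousSubmodule (Fin (6 + 1)) ℂ 14).toAddSubgroup.zsmul_mem hterm _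

end Pool.Agent.V1157.WB
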