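import Pool.Agent.V1157.WB.Mat
import Pool.Agent.V1157.WB.Cert

/-!
The determinant does not vanish for a particular choice of the points.
-/

set_option autoImplicit false

namespace Pool.Agent.V1157.WB

open Finset MvPolynomial Pool.Agent.H689R3.Weyl

lemma linN_eq {A : Type} (L : List A) (f : A → ℕ) : ∀ a, linN a L f = lin (R := ℕ) a L f := by
  induction L with
  | nil => intro a; rfl
  | cons r l ih =>
    intro a
    rw [linN, lin, ih]
    rfl

lemma lin_cast {A R : Type} [CommRing R] (L : List A) (f : A → ℕ) :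
    ∀ a, ((lin (R := ℕ) a L f : ℕ) : R) = lin (R := R) a L (fun r => ((f r : ℕ) : R)) := by
  induction L with
  | nil => intro a; simp [lin]
  | cons r l ih => intro a; rw [lin, lin, ← ih]; push_cast; rfl

lemma lin_add {A R : Type} [CommSemiring R] (L : List A) (f g : A → R) :
    ∀ a, lin a L (fun r => f r + g r) = lin a L f + lin a L g := by
  induction L with
  | nil => intro a; simp [lin]
  | cons r l ih => intro a; rw [lin, lin, lin, ih]; ring

lemma lin_mul {A R : Type} [CommSemiring R] (L : List A) (f : A → R) (c : R) :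
    ∀ a, lin a L (fun r => f r * c) = lin a L f * c := by
  induction L with
  | nil => intro a; simp [lin]
  | cons r l ih => intro a; rw [lin, lin, ih]; ring

lemma lin_zero {A R : Type} [CommSemiring R] (L : List A) (f : A → R) (hf : ∀ r ∈ L, f r = 0) :
    ∀ a, lin a L f = 0 := by
  induction L with
  | nil => intro a; simp [lin]
  | cons r l ih =>
    intro a
    rw [lin, ih (fun r' hr' => hf r' (List.mem_cons_of_mem _ hr')), hf r List.mem_cons_self]
    simp

lemma lin_sum {A R ι : Type} [CommSemiring R] (L : List A) (s : Finset ι) (f : ι → A → R) (a : ℕ) :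
    lin a L (fun r => ∑ i ∈ s, f i r) = ∑ i ∈ s, lin a L (f i) := by
  classical
  induction s using Finset.induction_on with
  | empty => simp only [Finset.sum_empty]; exact lin_zero L _ (fun _ _ => rfl) a
  | insert i s hi ih =>
    rw [Finset.sum_insert hi, ← ih, ← lin_add]
    congr 1
    funext r
    rw [Finset.sum_insert hi]

lemma linN_pk {A B : Type} (L : List A) (C : List B) (m : A → B → ℕ) (a : ℕ) :
    linN a L (fun r => pk (m r) C) = pk (fun c => linN a L (fun r => m r c)) C := by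
  induction C with
  | nil =>
    rw [linN_eq]
    exact lin_zero L _ (fun _ _ => rfl) a
  | cons c l ih =>
    rw [pk, ← ih]
    have h1 : (fun r => pk (m r) (c :: l)) = fun r => m r c + pk (m r) l * 8192 := by
      funext r
      change m r c + 8192 * pk (m r) l = _
      rw [mul_comm]
    rw [h1, linN_eq, lin_add, lin_mul, linN_eq, linN_eq]
    change _ = lin a L (fun r => m r c) + 8192 * lin a L (fun r => pk (m r) l)
    rw [mul_comm 8192]

lemma linN_le {A : Type} (L : List A) (f : A → ℕ) (hf : ∀ r, f r ≤ 6) :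
    ∀ a, linN a L f ≤ 42 * L.length := by
  induction L with
  | nil => intro a; simp [linN]
  | cons r l ih =>
    intro a
    have h1 := ih (a / 8)
    have h2 : a % 8 ≤ 7 := by omega
    have h3 := Nat.mul_le_mul h2 (hf r)
    have h4 : linN a (r :: l) f = (a % 8) * f r + linN (a / 8) l f := rfl
    rw [h4, List.length_cons]
    omega

lemma chkD_spec (c0 : ℕ × ℕ × ℕ) (g : ℕ × ℕ × ℕ → ℕ) (hg : ∀ c, g c < 8192) :
    ∀ C : List (ℕ × ℕ × ℕ), chkD c0 (pk g C) C = true → ∀ c ∈ C,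
      g c % 7 = if ceq c c0 then 1 else 0 := by
  intro C
  induction C with
  | nil => intro _ c hc; simp at hc
  | cons d l ih =>
    intro h c hc
    have hpk : pk g (d :: l) = g d + 8192 * pk g l := rfl
    have h1 : pk g (d :: l) % 8192 = g d := by
      rw [hpk, Nat.add_mul_mod_self_left, Nat.mod_eq_of_lt (hg d)]
    have h2 : pk g (d :: l) / 8192 = pk g l := by
      rw [hpk, Nat.add_mul_div_left _ _ (by norm_num), Nat.div_eq_of_lt (hg d), zero_add]
    rw [chkD, Bool.and_eq_true] at h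
    obtain ⟨ha, hb⟩ := h
    have ha' : pk g (d :: l) % 8192 % 7 = if ceq d c0 then 1 else 0 := Nat.eq_of_beq_eq_true ha
    have hb' : chkD c0 (pk g (d :: l) / 8192) l = true := hb
    rw [h1] at ha'
    rw [h2] at hb'
    rcases List.mem_cons.1 hc with rfl | hc
    · exact ha'
    · exact ih hb' c hc

lemma ent_le (r c : ℕ × ℕ × ℕ) : ent r c ≤ 6 := by
  unfold ent
  split <;> omega

lemma RL_length : RL.length = 112 := by decide

lemma chk_spec (q : (ℕ × ℕ × ℕ) × ℕ) (hq : q ∈ NP) (c : ℕ × ℕ × ℕ) (hc : c ∈ CC) :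
    linN q.2 RL (fun r => ent r c) % 7 = if ceq c q.1 then 1 else 0 := by
  have h := chk_true
  unfold chk at h
  rw [List.all_eq_true] at h
  have h1 := h q hq
  rw [linN_pk] at h1
  refine chkD_spec q.1 _ (fun c => ?_) CC h1 c hc
  have := linN_le RL (fun r => ent r c) (fun r => ent_le r c) q.2
  rw [RL_length] at this
  omega

/-- code of a row -/
def cR : Fin 7 × Fin 6 ⊕ Fin 7 × Fin 10 → ℕ × ℕ × ℕ
  | Sum.inl r => (0, r.1.val, r.2.val)
  | Sum.inr r => (1, r.1.val, r.2.val)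

/-- code of a column -/
def cC : Sset ⊕ Tset → ℕ × ℕ × ℕ
  | Sum.inl s => (0, s.1.1, s.1.2)
  | Sum.inr s => (1, s.1.1, s.1.2)

lemma ceq_iff (c d : ℕ × ℕ × ℕ) : ceq c d = true ↔ c = d := by
  unfold ceq
  rw [Bool.and_eq_true, Bool.and_eq_true]
  constructor
  · rintro ⟨h1, h2, h3⟩
    exact Prod.ext (Nat.eq_of_beq_eq_true h1)
      (Prod.ext (Nat.eq_of_beq_eq_true h2) (Nat.eq_of_beq_eq_true h3))
  · rintro rfl
    exact ⟨Nat.beq_refl _, Nat.beq_refl _, Nat.beq_refl _⟩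

lemma cC_inj : Function.Injective cC := by
  rintro (s | s) (t | t) h
  · simp only [cC, Prod.mk.injEq, true_and] at h
    exact congrArg _ (Subtype.ext (Prod.ext h.1 h.2))
  · simp [cC] at h
  · simp [cC] at h
  · simp only [cC, Prod.mk.injEq, true_and] at h
    exact congrArg _ (Subtype.ext (Prod.ext h.1 h.2))

lemma cC_mem (c : Sset ⊕ Tset) : cC c ∈ CC := by
  rcases c with s | s
  · have h : ∀ e ∈ Sset, ((0, e.1, e.2) : ℕ × ℕ × ℕ) ∈ CC := by decide +kernel
    exact h s.1 s.2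
  · have h : ∀ e ∈ Tset, ((1, e.1, e.2) : ℕ × ℕ × ℕ) ∈ CC := by decide +kernel
    exact h s.1 s.2

lemma RL_dec (ρ : ℕ × ℕ × ℕ) (h : ρ ∈ RL) : ∃ r, cR r = ρ := by
  have h1 : ∀ ρ ∈ RL, (ρ.1 = 0 ∧ ρ.2.1 < 7 ∧ ρ.2.2 < 6) ∨ (ρ.1 = 1 ∧ ρ.2.1 < 7 ∧ ρ.2.2 < 10) := by
    decide +kernel
  obtain ⟨a, b, c⟩ := ρ
  rcases h1 _ h with ⟨h2, h3, h4⟩ | ⟨h2, h3, h4⟩
  · simp only at h2 h3 h4
    subst h2
    exact ⟨Sum.inl (⟨b, h3⟩, ⟨c, h4⟩), rfl⟩
  · simp only at h2 h3 h4
    subst h2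
    exact ⟨Sum.inr (⟨b, h3⟩, ⟨c, h4⟩), rfl⟩

/-- the special points as vectors -/
def vec (f : ℕ → ℕ) (R : Type) [CommRing R] : Fin 7 → R := fun i => (f i.val : R)

lemma dN_du (t : Fin 6) : dN t.val = du t := by revert t; decide

lemma dN_dl (t : Fin 10) : dN t.val = dl t := by revert t; decide

lemma jN_cast (e d : ℕ × ℕ) (k : ℕ) (i : Fin 7) : ((jN e.1 e.2 d k i.val % 7 : ℕ) : ZMod 7) =
    jet e d k (vec xN (ZMod 7) i) (vec yN (ZMod 7) i) (vec wN (ZMod 7) i) := by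
  rw [ZMod.natCast_mod]
  unfold jN jet vec
  push_cast
  rfl

lemma MM_ent (r : Fin 7 × Fin 6 ⊕ Fin 7 × Fin 10) (c : Sset ⊕ Tset) :
    MM (vec xN (ZMod 7)) (vec yN (ZMod 7)) (vec wN (ZMod 7)) (vec vN (ZMod 7)) r c =
      ((ent (cR r) (cC c) : ℕ) : ZMod 7) := by
  rcases r with r | r <;> rcases c with c | c
  · have h : ent (cR (Sum.inl r)) (cC (Sum.inl c)) =
      jN c.1.1 c.1.2 (dN r.2.val) (11 - c.1.1 - c.1.2) r.1.val % 7 := rfl
    rw [h, jN_cast, dN_du]
    rfl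
  · have h : ent (cR (Sum.inl r)) (cC (Sum.inr c)) = 0 := rfl
    rw [h, Nat.cast_zero]
    rfl
  · have h : ent (cR (Sum.inr r)) (cC (Sum.inl c)) =
      (vN r.1.val * jN c.1.1 c.1.2 (dN r.2.val) (11 - c.1.1 - c.1.2) r.1.val) % 7 := rfl
    rw [h, ZMod.natCast_mod, Nat.cast_mul, ← ZMod.natCast_mod (jN _ _ _ _ _), jN_cast, dN_dl]
    rfl
  · have h : ent (cR (Sum.inr r)) (cC (Sum.inr c)) =
      jN c.1.1 c.1.2 (dN r.2.val) (12 - c.1.1 - c.1.2) r.1.val % 7 := rfl
    rw [h, jN_cast, dN_dl]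
    rfl

instance : Fact (Nat.Prime 7) := ⟨by norm_num⟩

lemma inj7 (z : Sset ⊕ Tset → ZMod 7)
    (hz : ∀ r, ∑ c, MM (vec xN (ZMod 7)) (vec yN (ZMod 7)) (vec wN (ZMod 7)) (vec vN (ZMod 7)) r c *
      z c = 0) : z = 0 := by
  funext c0
  obtain ⟨q, hq, hq1⟩ := List.mem_map.1 (cC_mem c0)
  have h1 : lin q.2 RL (fun ρ => ∑ c, ((ent ρ (cC c) : ℕ) : ZMod 7) * z c) = 0 := by
    apply lin_zero
    intro ρ hρ
    obtain ⟨r, rfl⟩ := RL_dec ρ hρ
    rw [← hz r]
    exact Finset.sum_congr rfl fun c _ => by rw [MM_ent]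
  rw [lin_sum] at h1
  have h2 : ∀ c, lin q.2 RL (fun ρ => ((ent ρ (cC c) : ℕ) : ZMod 7) * z c) =
      if c = c0 then z c else 0 := by
    intro c
    rw [lin_mul, ← lin_cast, ← linN_eq, ← ZMod.natCast_mod, chk_spec q hq _ (cC_mem c), hq1]
    by_cases hc : c = c0
    · rw [if_pos hc, if_pos ((ceq_iff _ _).2 (by rw [hc]))]
      simp
    · rw [if_neg hc, if_neg (fun h => hc (cC_inj ((ceq_iff _ _).1 h)))]
      simp
  rw [Finset.sum_congr rfl (fun c _ => h2 c)] at h1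
  simpa using h1

lemma dt7 (e : Sset ⊕ Tset ≃ Fin 7 × Fin 6 ⊕ Fin 7 × Fin 10) :
    dt e (MM (vec xN (ZMod 7)) (vec yN (ZMod 7)) (vec wN (ZMod 7)) (vec vN (ZMod 7))) ≠ 0 := by
  intro h
  unfold dt at h
  rw [← Matrix.exists_mulVec_eq_zero_iff] at h
  obtain ⟨z, hz0, hz⟩ := h
  apply hz0
  apply inj7
  intro r
  have h1 := congrFun hz (e.symm r)
  simp only [Matrix.mulVec, dotProduct, Matrix.submatrix_apply, Equiv.apply_symm_apply, id,
    Pi.zero_apply] at h1
  exact h1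

lemma map_vec (f : ℕ → ℕ) {R R' : Type} [CommRing R] [CommRing R'] (φ : R →+* R') :
    (fun i => φ (vec f R i)) = vec f R' := by
  funext i; simp [vec]

/-- The determinant is not zero for a particular choice of points and parameters. -/
lemma dt_ne (e : Sset ⊕ Tset ≃ Fin 7 × Fin 6 ⊕ Fin 7 × Fin 10) :
    dt e (MM (vec xN ℂ) (vec yN ℂ) (vec wN ℂ) (vec vN ℂ)) ≠ 0 := by
  have h1 := map_dt (Int.castRingHom (ZMod 7)) e
    (MM (vec xN ℤ) (vec yN ℤ) (vec wN ℤ) (vec vN ℤ))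
  have h2 := map_dt (Int.castRingHom ℂ) e (MM (vec xN ℤ) (vec yN ℤ) (vec wN ℤ) (vec vN ℤ))
  rw [map_MM, map_vec, map_vec, map_vec, map_vec] at h1 h2
  rw [← h2]
  intro h3
  apply dt7 e
  rw [← h1]
  have h4 : dt e (MM (vec xN ℤ) (vec yN ℤ) (vec wN ℤ) (vec vN ℤ)) = 0 := by
    apply (Int.cast_injective (α := ℂ))
    rw [Int.cast_zero]
    exact h3
  rw [h4, map_zero]

end Pool.Agent.V1157.WB
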